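import Mathlib

set_option maxHeartbeats 400000

namespace Pool.Agent.Results.MP_e482b1_nt.Neg

open Finset

/-- The set of primes, inside `ℤ`. -/
def P : Set ℤ := {x | ∃ p : ℕ, p.Prime ∧ x = p}

/-- The set of twin primes. -/
def P2 : Set ℤ := {x | x ∈ P ∧ (x - 2 ∈ P ∨ x + 2 ∈ P)}

/-- `a 0, …, a n` is the beginning of a `p`-ordering of `X`: each `a k` lies in `X` and minimises the
exponent of `p` (infinite for the product `0`) in the product of differences to the earlier terms. -/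
def IsOrd (X : Set ℤ) (p n : ℕ) (a : ℕ → ℤ) : Prop :=
  ∀ k ≤ n, a k ∈ X ∧ ∀ x ∈ X, emultiplicity (p : ℤ) (∏ i ∈ range k, (a k - a i)) ≤
    emultiplicity (p : ℤ) (∏ i ∈ range k, (x - a i))

/-- `F` is the Bhargava factorial `n!_X`: a positive integer whose `p`-part is `ν_n(X, p)` for every
prime `p`. -/
def IsFact (X : Set ℤ) (n F : ℕ) : Prop :=
  0 < F ∧ ∀ p : ℕ, p.Prime → ∃ a, IsOrd X p n a ∧
    emultiplicity (p : ℤ) (∏ i ∈ range n, (a n - a i)) = (F.factorization p : ℕ)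

/-- The largest power of `p` dividing `m`. -/
def w (p m : ℕ) : ℕ := p ^ m.factorization p

theorem avoid (T : Finset ℤ) (n : ℕ) (hT : n < T.card) (p : ℤ)
    (h : ∀ x ∈ T, ∀ y ∈ T, p ∣ x - y → x = y) (a : ℕ → ℤ) :
    ∃ x ∈ T, ∀ i ∈ range n, ¬ p ∣ x - a i := by
  by_contra hc
  push Not at hc
  choose! f hf hd using hc
  obtain ⟨x, hx, y, hy, hxy, he⟩ := exists_ne_map_eq_of_card_lt_of_maps_to
    (s := T) (t := range n) (by simpa using hT) (f := f) fun x hx => hf x hx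
  refine hxy (h x hx y hy ?_)
  have := dvd_sub (hd x hx) (hd y hy)
  rw [he] at this
  simpa using this

theorem exOrd (X : Set ℤ) (hX : X.Nonempty) (p n : ℕ) : ∃ a, IsOrd X p n a := by
  classical
  have hmin : ∀ (a : ℕ → ℤ) (k : ℕ), ∃ y ∈ X, ∀ x ∈ X,
      emultiplicity (p : ℤ) (∏ i ∈ range k, (y - a i)) ≤
        emultiplicity (p : ℤ) (∏ i ∈ range k, (x - a i)) := fun a k =>
    ⟨Function.argminOn (fun x => emultiplicity (p : ℤ) (∏ i ∈ range k, (x - a i))) X hX,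
      Function.argminOn_mem _ _ _, fun x hx =>
      Function.argminOn_le (fun x => emultiplicity (p : ℤ) (∏ i ∈ range k, (x - a i))) X hx⟩
  induction n with
  | zero =>
    obtain ⟨x, hx⟩ := hX
    exact ⟨fun _ => x, fun k hk => ⟨hx, fun y _ => by simp [Nat.le_zero.1 hk]⟩⟩
  | succ n ih =>
    obtain ⟨a, ha⟩ := ih
    obtain ⟨y, hy, hm⟩ := hmin a (n + 1)
    have hp : ∀ k ≤ n + 1, ∀ x, ∏ i ∈ range k, (x - Function.update a (n + 1) y i) =
        ∏ i ∈ range k, (x - a i) := fun k hk x => prod_congr rfl fun i hi => by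
      rw [Function.update_of_ne (by have := mem_range.1 hi; omega)]
    refine ⟨Function.update a (n + 1) y, fun k hk => ?_⟩
    simp only [hp k hk]
    rcases Nat.eq_or_lt_of_le hk with rfl | hk'
    · rw [Function.update_self]; exact ⟨hy, hm⟩
    · rw [Function.update_of_ne hk'.ne]; exact ha k (by omega)

theorem zero_of (X : Set ℤ) (T : Finset ℤ) (hTX : ∀ x ∈ T, x ∈ X) (n : ℕ) (hT : n < T.card) (p : ℕ)
    (hp : p.Prime) (h : ∀ x ∈ T, ∀ y ∈ T, (p : ℤ) ∣ x - y → x = y) (a : ℕ → ℤ)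
    (ha : IsOrd X p n a) : emultiplicity (p : ℤ) (∏ i ∈ range n, (a n - a i)) = 0 := by
  obtain ⟨x, hx, hd⟩ := avoid T n hT p h a
  have h1 := (ha n le_rfl).2 x (hTX x hx)
  have h2 : emultiplicity (p : ℤ) (∏ i ∈ range n, (x - a i)) = 0 := by
    rw [emultiplicity_eq_zero, (Nat.prime_iff_prime_int.1 hp).dvd_finset_prod_iff]
    rintro ⟨i, hi, h3⟩
    exact hd i hi h3
  rw [h2] at h1
  exact le_antisymm h1 zero_le

theorem exFact (X : Set ℤ) (T : Finset ℤ) (hTX : ∀ x ∈ T, x ∈ X) (n : ℕ) (hT : n < T.card) (D : ℕ)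
    (hD : ∀ x ∈ T, 0 ≤ x ∧ x < D) : ∃ F, IsFact X n F := by
  classical
  have hX : X.Nonempty := by
    obtain ⟨x, hx⟩ := card_pos.1 (lt_of_le_of_lt (Nat.zero_le _) hT)
    exact ⟨x, hTX x hx⟩
  choose a ha using fun p => exOrd X hX p n
  have hfin : ∀ p : ℕ, p.Prime → ∃ e : ℕ,
      emultiplicity (p : ℤ) (∏ i ∈ range n, (a p n - a p i)) = e := by
    intro p hp
    obtain ⟨x, hx, hd⟩ := avoid T n hT 0 (fun x _ y _ h => by simpa [sub_eq_zero] using h) (a p)
    have h1 := (ha p n le_rfl).2 x (hTX x hx)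
    have h2 : emultiplicity (p : ℤ) (∏ i ∈ range n, (x - a p i)) ≠ ⊤ := by
      rw [← finiteMultiplicity_iff_emultiplicity_ne_top, Int.finiteMultiplicity_iff]
      exact ⟨by simpa using hp.ne_one, prod_ne_zero_iff.2 fun i hi => by simpa using hd i hi⟩
    exact ⟨_, (ENat.coe_toNat (ne_top_of_le_ne_top h2 h1)).symm⟩
  choose! e he using hfin
  refine ⟨∏ q ∈ (range D).filter Nat.Prime, q ^ e q,
    prod_pos fun q hq => pow_pos (mem_filter.1 hq).2.pos _, fun p hp => ⟨a p, ha p, ?_⟩⟩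
  rw [Nat.factorization_prod fun q hq => (pow_pos (mem_filter.1 hq).2.pos _).ne', Finsupp.finset_sum_apply]
  rw [sum_congr rfl fun q hq => by
    rw [(mem_filter.1 hq).2.factorization_pow, Finsupp.single_apply]]
  rw [sum_ite_eq']
  split_ifs with hm
  · exact he p hp
  · have hpD : D ≤ p := by
      by_contra hc
      exact hm (mem_filter.2 ⟨mem_range.2 (by omega), hp⟩)
    refine zero_of X T hTX n hT p hp (fun x hx y hy hd => ?_) _ (ha p)
    have h1 := hD x hx
    have h2 := hD y hy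
    have h3 : (D : ℤ) ≤ p := by exact_mod_cast hpD
    have := Int.eq_zero_of_abs_lt_dvd hd (by rw [abs_lt]; constructor <;> omega)
    omega

theorem memP (x : ℤ) : x ∈ P ↔ x.toNat.Prime := by
  constructor
  · rintro ⟨p, hp, rfl⟩; simpa using hp
  · intro h
    exact ⟨_, h, by have := h.pos; omega⟩

def T1 : Finset ℤ :=
  {23, 47, 2, 3, 73, 5, 29, 7, 31, 101, 79, 11, 127, 13, 37, 61, 131, 17, 41, 19, 43, 67, 137}

def T2 : Finset ℤ :=
  {3, 5, 7, 11, 13, 17, 19, 29, 31, 41, 43, 59, 61, 71, 73, 101, 103, 107, 109, 137, 139, 149, 151}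

theorem hT1 : ∀ x ∈ T1, x ∈ P := by
  simp only [T1, mem_insert, mem_singleton, forall_eq_or_imp, forall_eq, memP, Int.reduceToNat]
  norm_num

theorem hT2 : ∀ x ∈ T2, x ∈ P2 := by
  simp only [T2, P2, Set.mem_setOf_eq, mem_insert, mem_singleton, forall_eq_or_imp, forall_eq, memP,
    Int.reduceSub, Int.reduceAdd, Int.reduceToNat]
  norm_num

theorem dvd23 (a : ℕ → ℤ) (ha : IsOrd P2 23 22 a) :
    ((23 : ℕ) : ℤ) ∣ ∏ i ∈ range 22, (a 22 - a i) := by
  have hn : ∀ k ≤ 22, a k % 23 ≠ 0 := by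
    intro k hk h0
    obtain ⟨⟨p, hp, hx⟩, h2⟩ := (ha k hk).1
    have h3 : 23 ∣ p := by omega
    obtain rfl := (Nat.prime_dvd_prime_iff_eq (by norm_num) hp).1 h3
    rw [hx, memP, memP] at h2
    revert h2
    decide
  have key : ∀ i j, i < j → j ≤ 22 → a i % 23 = a j % 23 →
      ((23 : ℕ) : ℤ) ∣ ∏ i ∈ range 22, (a 22 - a i) := by
    intro i j hij hj he
    have h1 := (ha j hj).2 (a 22) (ha 22 le_rfl).1
    have h2 : ((23 : ℕ) : ℤ) ∣ ∏ i ∈ range j, (a j - a i) :=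
      (show ((23 : ℕ) : ℤ) ∣ a j - a i by omega).trans (dvd_prod_of_mem _ (mem_range.2 hij))
    have h3 : ((23 : ℕ) : ℤ) ∣ ∏ i ∈ range j, (a 22 - a i) := by
      by_contra hc
      rw [emultiplicity_eq_zero.2 hc] at h1
      exact emultiplicity_eq_zero.1 (le_antisymm h1 zero_le) h2
    exact h3.trans (prod_dvd_prod_of_subset _ _ _ (range_subset_range.2 hj))
  obtain ⟨i, hi, j, hj, hij, he⟩ := exists_ne_map_eq_of_card_lt_of_maps_to
    (s := range 23) (t := Icc (1 : ℤ) 22) (by simp) (f := fun i => a i % 23) fun i hi => by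
      have := hn i (by have := mem_range.1 hi; omega)
      simp only [coe_Icc, Set.mem_Icc]
      omega
  rw [mem_range] at hi hj
  rcases lt_or_gt_of_ne hij with h | h
  · exact key i j h (by omega) he
  · exact key j i h (by omega) he.symm

theorem result :
    ∃ n : ℕ, 1 ≤ n ∧ (∃ F, IsFact P n F) ∧ (∃ F₂, IsFact P2 n F₂) ∧
      ∀ F F₂, IsFact P n F → IsFact P2 n F₂ → F₂ ≠ 2 * w 2 n * F := by
  refine ⟨22, by norm_num, exFact P T1 hT1 22 (by decide) 200 (by decide),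
    exFact P2 T2 hT2 22 (by decide) 200 (by decide), fun F F₂ h1 h2 he => ?_⟩
  have hp : Nat.Prime 23 := by norm_num
  obtain ⟨a, ha, e1⟩ := h1.2 23 hp
  obtain ⟨b, hb, e2⟩ := h2.2 23 hp
  rw [zero_of P T1 hT1 22 (by decide) 23 hp (by decide) a ha] at e1
  have h3 : F.factorization 23 = 0 := by exact_mod_cast e1.symm
  have h4 : F₂.factorization 23 ≠ 0 := fun h => by
    rw [h] at e2
    exact emultiplicity_eq_zero.1 e2 (dvd23 b hb)
  have h5 : 23 ∣ F₂ := Nat.dvd_of_factorization_pos h4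
  rw [he, w, ← pow_succ'] at h5
  rcases (Nat.Prime.dvd_mul hp).1 h5 with h | h
  · have := hp.dvd_of_dvd_pow h
    omega
  · have := hp.factorization_pos_of_dvd h1.1.ne' h
    omega

end Pool.Agent.Results.MP_e482b1_nt.Neg
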